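import Mathlib
import Pool.Agent.V11221.CountHyp2

/-!
MP_3984bd_an, Q1: yes.  There is a complete, countably dimensional (Hausdorff) locally convex
space over `𝕂 = ℝ` or `ℂ` supporting a hypercyclic operator.
-/

namespace Pool.Agent.Results.MP_3984bd_an.CompleteCountable

open Polynomial Filter Topology Pointwise
open Pool.Agent.V11221.CountHyp

/-- the uniform structure on `𝕂[X]` -/
noncomputable abbrev US (𝕂 : Type) [RCLike 𝕂] : UniformSpace 𝕂[X] :=
  UniformSpace.comap (io_all : 𝕂[X] →ₗ[𝕂] (W 𝕂 → L1 𝕂)) inferInstance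

theorem result (𝕂 : Type) [RCLike 𝕂] :
    ∃ (X : Type) (_ : AddCommGroup X) (_ : Module 𝕂 X) (_ : Module ℝ X)
      (_ : IsScalarTower ℝ 𝕂 X) (_ : UniformSpace X) (_ : IsUniformAddGroup X)
      (_ : ContinuousSMul 𝕂 X),
      LocallyConvexSpace ℝ X ∧ T2Space X ∧ CompleteSpace X ∧
      Module.rank 𝕂 X = Cardinal.aleph0 ∧
      ∃ T : X →L[𝕂] X, ∃ x : X, Dense (Set.range fun n : ℕ => (T ^ n) x) := by
  let us : UniformSpace 𝕂[X] := US 𝕂
  let ι : 𝕂[X] →ₗ[𝕂] (W 𝕂 → L1 𝕂) := io_all
  have hind : IsUniformInducing ι := ⟨rfl⟩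
  have hInd : IsInducing ι := hind.isInducing
  have hug : IsUniformAddGroup 𝕂[X] := IsUniformAddGroup.comap ι
  have hcs : ContinuousSMul 𝕂 𝕂[X] := continuousSMul_induced ι
  have hcoord : ∀ a : W 𝕂, Continuous (fun f : 𝕂[X] => io a.1 f) := fun a =>
    (continuous_apply a).comp hInd.continuous
  -- continuity of `T`
  have hT : Continuous (fun f : 𝕂[X] => X * f) := by
    rw [hInd.continuous_iff]
    apply continuous_pi
    intro a
    show Continuous (fun f : 𝕂[X] => io a.1 (X * f))
    let g : 𝕂[X] →+ L1 𝕂 :=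
      ((io a.1).toAddMonoidHom).comp (AddMonoidHom.mulLeft (X : 𝕂[X]))
    have hg : Continuous g := by
      apply continuous_of_continuousAt_zero
      rw [ContinuousAt, map_zero, tendsto_zero_iff_norm_tendsto_zero]
      let b : W 𝕂 := ⟨_, adm_X a.2⟩
      have hb : Tendsto (fun f : 𝕂[X] => ‖io b.1 f‖) (𝓝 0) (𝓝 0) := by
        have := ((hcoord b).norm).tendsto 0
        simpa using this
      exact squeeze_zero (fun f => norm_nonneg _) (fun f => norm_io_X f) hb
    exact hg
  let T : 𝕂[X] →L[𝕂] 𝕂[X] :=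
    { toFun := fun f => X * f
      map_add' := fun f g => mul_add _ _ _
      map_smul' := fun c f => by simp
      cont := hT }
  have hTn : ∀ n : ℕ, (T ^ n) 1 = X ^ n := by
    intro n
    induction n with
    | zero => simp
    | succ n ih =>
      rw [pow_succ', ContinuousLinearMap.mul_apply, ih, pow_succ']
      rfl
  -- density
  have hy : ∀ j : ℕ, y 𝕂 j ∈ closure (Set.range fun n : ℕ => (X ^ n : 𝕂[X])) := by
    intro j
    apply mem_closure_of_tendsto (b := (hyperfilter ℕ : Filter ℕ))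
      (f := fun m => (X ^ s 𝕂 (Nat.pair j m) : 𝕂[X]))
    · rw [hInd.tendsto_nhds_iff, tendsto_pi_nhds]
      intro a
      show Tendsto (fun m => io a.1 (X ^ s 𝕂 (Nat.pair j m))) _ (𝓝 (io a.1 (y 𝕂 j)))
      rw [tendsto_iff_norm_sub_tendsto_zero]
      apply (a.2.2 j 0).congr
      intro m
      rw [← map_sub]
      have h1 : (X ^ s 𝕂 (Nat.pair j m) - y 𝕂 j : 𝕂[X]) = u 𝕂 (s 𝕂 (Nat.pair j m)) := by
        have h2 := s_gap 𝕂 (Nat.pair j m)
        rw [u_eq 𝕂 (i := Nat.pair j m) le_rfl (by omega), Nat.unpair_pair]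
        simp
      rw [h1, norm_io_u a.2.1]
      rfl
    · exact Eventually.of_forall fun m => ⟨_, rfl⟩
  have hYdense : ∀ f : 𝕂[X], f ∈ closure (Set.range (yl 𝕂)) := by
    intro f
    induction f using Polynomial.induction_on' with
    | add p q hp hq =>
      have h1 : p + q ∈ closure (Set.range (yl 𝕂) + Set.range (yl 𝕂)) := by
        exact map_mem_closure₂ continuous_add hp hq fun a ha b hb => Set.add_mem_add ha hb
      apply closure_mono _ h1
      rintro _ ⟨_, ⟨l, rfl⟩, _, ⟨l', rfl⟩, rfl⟩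
      exact ⟨l ++ l', yl_append 𝕂 l l'⟩
    | monomial n c =>
      have hc : c ∈ closure (Set.range (TopologicalSpace.denseSeq 𝕂)) :=
        TopologicalSpace.denseRange_denseSeq 𝕂 c
      have hcont : Continuous (fun c : 𝕂 => c • (X ^ n : 𝕂[X])) :=
        continuous_id.smul continuous_const
      have h1 : c • (X ^ n : 𝕂[X]) ∈ closure (Set.range (yl 𝕂)) := by
        apply map_mem_closure hcont hc
        rintro _ ⟨m, rfl⟩
        refine ⟨[(m, n)], ?_⟩
        simp only [yl, List.map_cons, List.map_nil, List.sum_cons, List.sum_nil, add_zero]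
        rw [← smul_eq_C_mul]
      rw [← C_mul_X_pow_eq_monomial, ← smul_eq_C_mul]
      exact h1
  have hdense : Dense (Set.range fun n : ℕ => (X ^ n : 𝕂[X])) := by
    intro f
    have h1 : Set.range (yl 𝕂) ⊆ closure (Set.range fun n : ℕ => (X ^ n : 𝕂[X])) := by
      rintro _ ⟨l, rfl⟩
      obtain ⟨j, hj⟩ := y_surj 𝕂 l
      rw [← hj]; exact hy j
    have h2 := closure_mono h1 (hYdense f)
    rwa [closure_closure] at h2
  have hrank : Module.rank 𝕂 𝕂[X] = Cardinal.aleph0 := by
    have := (B 𝕂).mk_eq_rank''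
    rw [← this, Cardinal.mk_nat]
  have hlc : LocallyConvexSpace ℝ 𝕂[X] := by
    have h1 : LocallyConvexSpace ℝ (W 𝕂 → L1 𝕂) := inferInstance
    exact LocallyConvexSpace.induced (ι.restrictScalars ℝ)
  refine ⟨𝕂[X], inferInstance, inferInstance, inferInstance, inferInstance, us, hug, hcs,
    hlc, ?_, ?_, hrank, T, 1, ?_⟩
  · exact (IsUniformEmbedding.mk hind io_all_inj).isEmbedding.t2Space
  · rw [completeSpace_iff_isComplete_range hind]
    exact range_closed.isComplete
  · simp only [hTn]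
    exact hdense

end Pool.Agent.Results.MP_3984bd_an.CompleteCountable
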